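import Pool.Agent.H343.QF.StQ

set_option autoImplicit false
set_option linter.unusedSectionVars false

/-! # MP_9a852a_al, task R3: perimeter of the relator (helper726, for helper343) -/

namespace Pool.Agent.H726.QF

open Pool.Agent.TH68 Pool.Agent.Helper97.Hyp Pool.Agent.H343.AN Pool.Agent.H343.QF

/-- the sum of the lengths of the blocks, as a function of the index -/
def AA (n E l0 : ℕ) (j : ℤ) : ℤ :=
  (j / ((n : ℤ) + 1)) * (P0 n E l0 : ℤ) +
    ∑ t ∈ Finset.range (j % ((n : ℤ) + 1)).toNat, (lamt E l0 t : ℤ)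

theorem div_val {n : ℕ} (q : ℤ) (r : ℕ) (hr : r ≤ n) :
    (q * ((n : ℤ) + 1) + r) / ((n : ℤ) + 1) = q ∧
      (q * ((n : ℤ) + 1) + r) % ((n : ℤ) + 1) = r := by
  have hN : (0 : ℤ) < (n : ℤ) + 1 := by positivity
  have h1 : (q * ((n : ℤ) + 1) + r) / ((n : ℤ) + 1) = q := by
    rw [add_comm, Int.add_mul_ediv_right _ _ hN.ne',
      Int.ediv_eq_zero_of_lt (by positivity) (by omega), zero_add]
  refine ⟨h1, ?_⟩
  rw [Int.emod_def, h1]
  ring

theorem exists_val (n : ℕ) (j : ℤ) : ∃ (q : ℤ) (r : ℕ), r ≤ n ∧ j = q * ((n : ℤ) + 1) + r := by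
  have hN : (0 : ℤ) < (n : ℤ) + 1 := by positivity
  have h1 := Int.emod_nonneg j hN.ne'
  have h2 := Int.emod_lt_of_pos j hN
  have h3 := Int.emod_add_mul_ediv j ((n : ℤ) + 1)
  refine ⟨j / ((n : ℤ) + 1), (j % ((n : ℤ) + 1)).toNat, by omega, ?_⟩
  rw [Int.toNat_of_nonneg h1]
  linarith

theorem AA_val {n : ℕ} (E l0 : ℕ) (q : ℤ) (r : ℕ) (hr : r ≤ n) :
    AA n E l0 (q * ((n : ℤ) + 1) + r) =
      q * (P0 n E l0 : ℤ) + ∑ t ∈ Finset.range r, (lamt E l0 t : ℤ) := by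
  unfold AA
  rw [(div_val q r hr).1, (div_val q r hr).2, Int.toNat_natCast]

theorem lamr_val {n : ℕ} (E l0 : ℕ) (q : ℤ) (r : ℕ) (hr : r ≤ n) :
    lamr n E l0 (q * ((n : ℤ) + 1) + r) = lamt E l0 r := by
  unfold lamr
  rw [(div_val q r hr).2, Int.toNat_natCast]

theorem AA_succ (n E l0 : ℕ) (j : ℤ) : AA n E l0 (j + 1) = AA n E l0 j + lamr n E l0 j := by
  obtain ⟨q, r, hr, rfl⟩ := exists_val n j
  rw [AA_val E l0 q r hr, lamr_val E l0 q r hr]
  rcases hr.lt_or_eq with h | rfl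
  · have e : q * ((n : ℤ) + 1) + r + 1 = q * ((n : ℤ) + 1) + ((r + 1 : ℕ) : ℤ) := by
      push_cast; ring
    rw [e, AA_val E l0 q (r + 1) h, Finset.sum_range_succ]
    ring
  · have e : q * ((r : ℤ) + 1) + r + 1 = (q + 1) * ((r : ℤ) + 1) + ((0 : ℕ) : ℤ) := by
      push_cast; ring
    rw [e, AA_val E l0 (q + 1) 0 (Nat.zero_le _), Finset.sum_range_zero]
    have h1 : (P0 r E l0 : ℤ) = ∑ t ∈ Finset.range r, (lamt E l0 t : ℤ) + lamt E l0 r := by
      unfold P0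
      rw [Finset.sum_range_succ]
      push_cast
      rfl
    linarith

theorem AA_period (n E l0 : ℕ) (j e : ℤ) :
    AA n E l0 (j + e * ((n : ℤ) + 1)) = AA n E l0 j + e * (P0 n E l0 : ℤ) := by
  obtain ⟨q, r, hr, rfl⟩ := exists_val n j
  have e' : q * ((n : ℤ) + 1) + r + e * ((n : ℤ) + 1) = (q + e) * ((n : ℤ) + 1) + r := by ring
  rw [e', AA_val E l0 (q + e) r hr, AA_val E l0 q r hr]
  ring

theorem AA_sum (n E l0 : ℕ) (i : ℤ) (d : ℕ) :
    ∑ j ∈ Finset.Ico i (i + d), (lamr n E l0 j : ℤ) = AA n E l0 (i + d) - AA n E l0 i := by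
  induction d with
  | zero => simp
  | succ d ih =>
    have e : Finset.Ico i (i + ((d + 1 : ℕ) : ℤ)) = insert (i + d) (Finset.Ico i (i + d)) := by
      ext x
      simp only [Finset.mem_Ico, Finset.mem_insert]
      push_cast
      omega
    rw [e, Finset.sum_insert (by simp), ih]
    have e2 : i + ((d + 1 : ℕ) : ℤ) = (i + d) + 1 := by push_cast; ring
    rw [e2, AA_succ]
    ring

theorem AA_mono (n E l0 : ℕ) {i k : ℤ} (h : i ≤ k) : AA n E l0 i ≤ AA n E l0 k := by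
  obtain ⟨d, rfl⟩ := Int.exists_add_of_le h
  have h1 := AA_sum n E l0 i d
  have h2 : (0 : ℤ) ≤ ∑ j ∈ Finset.Ico i (i + d), (lamr n E l0 j : ℤ) :=
    Finset.sum_nonneg fun _ _ => by positivity
  linarith

theorem AA_sumR (n E l0 : ℕ) {i k : ℤ} (h : i ≤ k) :
    ∑ j ∈ Finset.Ico i k, (lamr n E l0 j : ℝ) = ((AA n E l0 k - AA n E l0 i : ℤ) : ℝ) := by
  obtain ⟨d, rfl⟩ := Int.exists_add_of_le h
  rw [← AA_sum n E l0 i d]
  push_cast
  rfl

/-- the perimeter -/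
theorem P0_eq (n E l0 : ℕ) : 2 * P0 n E l0 = 2 * l0 + n * (n + 3) * E := by
  induction n with
  | zero => simp [P0, lamt]
  | succ n ih =>
    have h1 : P0 (n + 1) E l0 = P0 n E l0 + (n + 2) * E := by
      unfold P0
      rw [Finset.sum_range_succ]
      rfl
    rw [h1]
    nlinarith

theorem rdist : ToolG → S_rcor → S_rdist := by
  intro hG hcor Γ _ W a b δ D R n E l0 κ g h
  obtain ⟨h5, hper⟩ := hcor h
  have hn : (10 : ℝ) ^ 13 ≤ n := by exact_mod_cast h.bd.hn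
  have hlo : (E : ℝ) ≤ l0 := by exact_mod_cast h.bd.lo
  have hhi : (l0 : ℝ) ≤ 3 * (n + 1) * E := by exact_mod_cast h.bd.hi
  have hU : 10 ^ 7 * (n : ℝ) * (D + R) ≤ E := h.bd.hE
  have hR : (2 : ℝ) ≤ R := h.bd.hR
  have hD : (1 : ℝ) ≤ D := h.good.one.trans h.good.le
  have hE0 : (0 : ℝ) ≤ E := Nat.cast_nonneg _
  have hUU : (0 : ℝ) ≤ D + R := by linarith
  have hP : 2 * (P0 n E l0 : ℝ) = 2 * l0 + n * (n + 3) * E := by exact_mod_cast P0_eq n E l0
  have hLL : (LL n E : ℝ) = 3 * (n + 1) * E := by unfold LL; push_cast; ring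
  have hn1 : (1 : ℝ) ≤ n := by linarith
  have hnE : (E : ℝ) ≤ n * E := by nlinarith
  -- small error terms
  have herr : ((n : ℝ) + 1) * (200 * (D + R)) ≤ E := by nlinarith
  have herrR : ((n : ℝ) + 1) * R ≤ E := by nlinarith
  have hEL : (E : ℝ) ≤ LL n E := by rw [hLL]; nlinarith
  have hPlow : (n : ℝ) ^ 2 * E / 2 ≤ P0 n E l0 := by nlinarith [mul_nonneg hE0 (by linarith : (0 : ℝ) ≤ n)]
  have hPE : (E : ℝ) ≤ P0 n E l0 := by
    have : 0 ≤ (n : ℝ) * (n + 3) * E := by positivity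
    linarith
  have key : ∀ (e : ℤ) (j : ℤ), 0 < e → (P0 n E l0 : ℝ) - LL n E ≤
      dist (pt W (Xr a b n E l0 κ g j)) (pt W (Xr a b n E l0 κ g (j + e * ((n : ℤ) + 1)))) := by
    intro e j he
    have hle : j ≤ j + e * ((n : ℤ) + 1) := by nlinarith
    have h1 := (hG.cor2 h5 j (j + e * ((n : ℤ) + 1)) hle).1
    rw [AA_sumR n E l0 hle, AA_period] at h1
    push_cast at h1
    have he1 : (1 : ℝ) ≤ e := by exact_mod_cast he
    have h2 : (P0 n E l0 : ℝ) - ((n : ℝ) + 1) * (200 * (D + R)) ≤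
        e * ((P0 n E l0 : ℝ) - ((n : ℝ) + 1) * (200 * (D + R))) := by
      have h3 : 0 ≤ (P0 n E l0 : ℝ) - ((n : ℝ) + 1) * (200 * (D + R)) := by linarith
      nlinarith
    linarith
  refine ⟨?_, ?_, hPlow, ?_⟩
  · intro e j he
    rw [← hper j e]
    rcases lt_or_gt_of_ne he with h0 | h0
    · have h1 := key (-e) (j + e * ((n : ℤ) + 1)) (by omega)
      have e1 : j + e * ((n : ℤ) + 1) + -e * ((n : ℤ) + 1) = j := by ring
      rw [e1, dist_comm] at h1
      exact h1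
    · exact key e j h0
  · intro i k
    obtain ⟨q, r, hr, hq⟩ := exists_val n (k - i)
    have hk : k + (-q) * ((n : ℤ) + 1) = i + r := by linarith
    have hrR : (r : ℝ) ≤ n := by exact_mod_cast hr
    have hup := (hG.cor2 h5 i (i + r) (by omega)).2
    rw [AA_sumR n E l0 (by omega : i ≤ i + (r : ℤ))] at hup
    have hlow := (hG.cor2 h5 (i + r + (-1) * ((n : ℤ) + 1)) i (by omega)).2
    rw [AA_sumR n E l0 (by omega : i + (r : ℤ) + (-1) * ((n : ℤ) + 1) ≤ i), AA_period] at hlow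
    push_cast at hup hlow
    rcases le_total (((AA n E l0 (i + r) - AA n E l0 i : ℤ) : ℝ)) ((P0 n E l0 : ℝ) / 2) with h1 | h1
    · refine ⟨-q, ?_⟩
      rw [← hper k (-q), hk]
      push_cast at h1
      have h2 : (r : ℝ) * R ≤ ((n : ℝ) + 1) * R := by nlinarith
      nlinarith
    · refine ⟨-q + -1, ?_⟩
      rw [← hper k (-q + -1)]
      have e1 : k + (-q + -1) * ((n : ℤ) + 1) = i + r + (-1) * ((n : ℤ) + 1) := by linarith
      rw [e1, dist_comm]
      push_cast at h1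
      have h3 : (0 : ℝ) ≤ r := Nat.cast_nonneg _
      have h2 : ((n : ℝ) + 1 - r) * R ≤ ((n : ℝ) + 1) * R := by nlinarith
      nlinarith
  · nlinarith [mul_nonneg hE0 (by linarith : (0 : ℝ) ≤ n)]

end Pool.Agent.H726.QF
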